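import Pool.Agent.CCO.Defs
import Mathlib.Combinatorics.SimpleGraph.Tutte

/-!
# Petersen's theorem

A finite bridgeless multigraph without loops all of whose vertices have degree 3 or 0 has a set of
edges meeting every vertex of degree 3 exactly once.
-/

set_option autoImplicit false

namespace Pool.Agent.CCP55

open Pool.Agent.CCO Finset

variable {G : FinGraph}

theorem mem_cut_iff {W : Finset G.V} {e : G.E} :
    e ∈ cut G W ↔ ¬ (G.fst e ∈ W ↔ G.snd e ∈ W) := by
  simp [cut]

theorem mem_cut_singleton (hl : ∀ e, G.fst e ≠ G.snd e) {v : G.V} {e : G.E} :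
    e ∈ cut G {v} ↔ G.fst e = v ∨ G.snd e = v := by
  rw [mem_cut_iff]
  simp only [mem_singleton]
  have := hl e
  constructor
  · intro h
    tauto
  · rintro (h | h)
    · rw [iff_iff_and_or_not_and_not]
      rintro (⟨h1, h2⟩ | ⟨h1, h2⟩)
      · exact this (h1.trans h2.symm)
      · exact h1 h
    · rw [iff_iff_and_or_not_and_not]
      rintro (⟨h1, h2⟩ | ⟨h1, h2⟩)
      · exact this (h1.trans h2.symm)
      · exact h2 h

/-- Double counting of the edge-ends in a vertex set. -/
theorem sum_cut_singleton (hl : ∀ e, G.fst e ≠ G.snd e) (W : Finset G.V) :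
    ∑ v ∈ W, (cut G {v}).card = (cut G W).card +
      2 * (univ.filter (fun e => G.fst e ∈ W ∧ G.snd e ∈ W)).card := by
  have h1 : ∀ v : G.V, (cut G {v}).card =
      ∑ e : G.E, ((if G.fst e = v then 1 else 0) + (if G.snd e = v then 1 else 0)) := by
    intro v
    rw [card_eq_sum_ones, ← sum_filter_add_sum_filter_not univ (fun e => e ∈ cut G {v})]
    have h2 : univ.filter (fun e => e ∈ cut G {v}) = cut G {v} := by ext e; simp
    rw [h2]
    have h3 : ∑ e ∈ univ.filter (fun e => e ∉ cut G {v}),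
        ((if G.fst e = v then 1 else 0) + (if G.snd e = v then 1 else 0)) = 0 := by
      apply sum_eq_zero
      intro e he
      rw [mem_filter, mem_cut_singleton hl] at he
      push Not at he
      rw [if_neg he.2.1, if_neg he.2.2, add_zero]
    rw [h3, add_zero]
    apply sum_congr rfl
    intro e he
    rw [mem_cut_singleton hl] at he
    have := hl e
    rcases he with h | h
    · rw [if_pos h, if_neg (fun h' => this (h.trans h'.symm))]
    · rw [if_pos h, if_neg (fun h' => this (h'.trans h.symm))]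
  simp_rw [h1]
  rw [sum_comm]
  have h4 : ∀ e : G.E, ∑ v ∈ W, ((if G.fst e = v then 1 else 0) + (if G.snd e = v then 1 else 0)) =
      (if e ∈ cut G W then 1 else 0) +
        2 * (if (G.fst e ∈ W ∧ G.snd e ∈ W) then 1 else 0) := by
    intro e
    rw [sum_add_distrib, sum_ite_eq, sum_ite_eq]
    by_cases ha : G.fst e ∈ W <;> by_cases hb : G.snd e ∈ W <;> simp [ha, hb, mem_cut_iff]
  simp_rw [h4]
  rw [sum_add_distrib, ← mul_sum, sum_ite_mem, univ_inter, card_eq_sum_ones]
  congr 2
  rw [card_filter]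

/-- A vertex set with an odd number of vertices, all of degree 3, has at least 3 edges in its cut,
if there are no bridges. -/
theorem three_le_cut (hl : ∀ e, G.fst e ≠ G.snd e) (hb : Bridgeless G) {W : Finset G.V}
    (hW : ∀ v ∈ W, (cut G {v}).card = 3) (hodd : Odd W.card) : 3 ≤ (cut G W).card := by
  have h1 := sum_cut_singleton hl W
  rw [sum_congr rfl hW, sum_const, smul_eq_mul] at h1
  have h2 := hb W
  obtain ⟨k, hk⟩ := hodd
  omega

/-- The vertices of degree 3. -/
abbrev VV (G : FinGraph) := {v : G.V // (cut G {v}).card = 3}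

/-- The simple graph of adjacency on the vertices of degree 3. -/
def simple (G : FinGraph) : SimpleGraph (VV G) where
  Adj x y := x ≠ y ∧ ∃ e, s(G.fst e, G.snd e) = s(x.1, y.1)
  symm := ⟨fun x y h => ⟨h.1.symm, by
    obtain ⟨e, he⟩ := h.2
    exact ⟨e, by rw [he, Sym2.eq_swap]⟩⟩⟩
  loopless := ⟨fun x h => h.1 rfl⟩

section Comp

variable (u : Set (VV G))

/-- The graph of the vertices of degree 3 outside `u`. -/
abbrev rest : SimpleGraph (((⊤ : (simple G).Subgraph).deleteVerts u).verts) :=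
  ((⊤ : (simple G).Subgraph).deleteVerts u).coe

theorem mem_rest_verts {x : VV G} : x ∈ ((⊤ : (simple G).Subgraph).deleteVerts u).verts ↔ x ∉ u := by
  simp

open Classical in
/-- The vertices of `G` in a component. -/
noncomputable def comp (K : (rest u).ConnectedComponent) : Finset G.V :=
  univ.filter (fun v => ∃ (h : (cut G {v}).card = 3)
    (h2 : (⟨v, h⟩ : VV G) ∈ ((⊤ : (simple G).Subgraph).deleteVerts u).verts),
    (rest u).connectedComponentMk ⟨⟨v, h⟩, h2⟩ = K)

theorem mem_comp {K : (rest u).ConnectedComponent} {v : G.V} :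
    v ∈ comp u K ↔ ∃ (h : (cut G {v}).card = 3)
    (h2 : (⟨v, h⟩ : VV G) ∈ ((⊤ : (simple G).Subgraph).deleteVerts u).verts),
    (rest u).connectedComponentMk ⟨⟨v, h⟩, h2⟩ = K := by
  simp [comp]

theorem card_comp (K : (rest u).ConnectedComponent) : (comp u K).card = K.supp.ncard := by
  classical
  rw [← Set.ncard_coe_finset]
  symm
  refine Set.ncard_congr (fun x _ => x.1.1) ?_ ?_ ?_
  · intro x hx
    rw [mem_coe, mem_comp]
    exact ⟨x.1.2, x.2, hx⟩
  · intro x y _ _ hxy
    exact Subtype.ext (Subtype.ext hxy)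
  · intro v hv
    rw [mem_coe, mem_comp] at hv
    obtain ⟨h, h2, h3⟩ := hv
    exact ⟨⟨⟨v, h⟩, h2⟩, h3, rfl⟩

/-- An edge leaving a component ends in `u`. -/
theorem cut_comp (hl : ∀ e, G.fst e ≠ G.snd e) (hdeg : ∀ v, (cut G {v}).card = 0 ∨ (cut G {v}).card = 3)
    (K : (rest u).ConnectedComponent) {e : G.E} (he : e ∈ cut G (comp u K)) :
    ∃ a b : G.V, s(G.fst e, G.snd e) = s(a, b) ∧ a ∈ comp u K ∧
      ∃ h : (cut G {b}).card = 3, (⟨b, h⟩ : VV G) ∈ u := by
  have key : ∀ a b : G.V, s(G.fst e, G.snd e) = s(a, b) → a ∈ comp u K → b ∉ comp u K →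
      ∃ h : (cut G {b}).card = 3, (⟨b, h⟩ : VV G) ∈ u := by
    intro a b hab ha hb
    have heb : e ∈ cut G {b} := by
      rw [mem_cut_singleton hl]
      rw [Sym2.eq_iff] at hab
      tauto
    have hb3 : (cut G {b}).card = 3 := by
      rcases hdeg b with h | h
      · rw [card_eq_zero] at h
        rw [h] at heb
        exact absurd heb (notMem_empty _)
      · exact h
    refine ⟨hb3, ?_⟩
    by_contra hbu
    apply hb
    rw [mem_comp] at ha ⊢
    obtain ⟨h, h2, h3⟩ := ha
    refine ⟨hb3, (mem_rest_verts u).2 hbu, ?_⟩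
    rw [← h3]
    apply SimpleGraph.ConnectedComponent.sound
    apply SimpleGraph.Adj.reachable
    have hau : (⟨a, h⟩ : VV G) ∉ u := (mem_rest_verts u).1 h2
    have hadj : (simple G).Adj ⟨b, hb3⟩ ⟨a, h⟩ := by
      refine ⟨?_, e, by rw [hab, Sym2.eq_swap]⟩
      intro hba
      have hba' : b = a := congrArg Subtype.val hba
      rw [hba', Sym2.eq_iff] at hab
      have := hl e
      rcases hab with ⟨h1, h2⟩ | ⟨h1, h2⟩ <;> exact this (h1.trans h2.symm)
    simp only [SimpleGraph.Subgraph.coe_adj, SimpleGraph.Subgraph.deleteVerts_adj]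
    exact ⟨trivial, hbu, trivial, hau, hadj⟩
  rw [mem_cut_iff] at he
  by_cases h1 : G.fst e ∈ comp u K
  · have h2 : G.snd e ∉ comp u K := fun h => he ⟨fun _ => h, fun _ => h1⟩
    exact ⟨_, _, rfl, h1, key _ _ rfl h1 h2⟩
  · have h2 : G.snd e ∈ comp u K := by
      by_contra h
      exact he ⟨fun h' => absurd h' h1, fun h' => absurd h' h⟩
    exact ⟨_, _, Sym2.eq_swap, h2, key _ _ Sym2.eq_swap h2 h1⟩

theorem no_violator (hl : ∀ e, G.fst e ≠ G.snd e)
    (hdeg : ∀ v, (cut G {v}).card = 0 ∨ (cut G {v}).card = 3) (hb : Bridgeless G) :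
    ¬ (simple G).IsTutteViolator u := by
  classical
  intro hu
  unfold SimpleGraph.IsTutteViolator at hu
  have : Finite ((rest u).ConnectedComponent) := Quot.finite _
  have hfin : ((rest u).oddComponents).Finite := Set.toFinite _
  set O : Finset ((rest u).ConnectedComponent) := hfin.toFinset with hO
  have hOc : ((rest u).oddComponents).ncard = O.card := by
    rw [Set.ncard_eq_toFinset_card _ hfin]
  have hufin : u.Finite := Set.toFinite _
  set U : Finset G.V := hufin.toFinset.image Subtype.val with hU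
  have hUc : U.card ≤ u.ncard := by
    rw [Set.ncard_eq_toFinset_card _ hufin]
    exact card_image_le
  have hUmem : ∀ b : G.V, (∃ h : (cut G {b}).card = 3, (⟨b, h⟩ : VV G) ∈ u) → b ∈ U := by
    rintro b ⟨h, hb⟩
    rw [hU, mem_image]
    exact ⟨⟨b, h⟩, hufin.mem_toFinset.2 hb, rfl⟩
  -- every odd component has at least three leaving edges
  have h3 : ∀ K ∈ O, 3 ≤ (cut G (comp u K)).card := by
    intro K hK
    refine three_le_cut hl hb ?_ ?_
    · intro v hv
      rw [mem_comp] at hv
      exact hv.1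
    · rw [card_comp]
      exact hfin.mem_toFinset.1 hK
  -- the leaving edges of different components are different
  have hdisj : ∀ K ∈ O, ∀ K' ∈ O, K ≠ K' → Disjoint (cut G (comp u K)) (cut G (comp u K')) := by
    intro K _ K' _ hne
    rw [disjoint_left]
    intro e he he'
    obtain ⟨a, b, h1, h2, h4, h5⟩ := cut_comp u hl hdeg K he
    obtain ⟨a', b', h1', h2', h4', h5'⟩ := cut_comp u hl hdeg K' he'
    have haa : a = a' := by
      rw [h1, Sym2.eq_iff] at h1'
      rcases h1' with ⟨h6, _⟩ | ⟨h6, h7⟩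
      · exact h6
      · exfalso
        subst h6
        rw [mem_comp] at h2
        obtain ⟨h8, h9, _⟩ := h2
        exact (mem_rest_verts u).1 h9 h5'
    subst haa
    rw [mem_comp] at h2 h2'
    obtain ⟨_, _, h8⟩ := h2
    obtain ⟨_, _, h9⟩ := h2'
    exact hne (h8.symm.trans h9)
  have h4 : O.card * 3 ≤ ∑ K ∈ O, (cut G (comp u K)).card := by
    rw [← smul_eq_mul, ← sum_const]
    exact sum_le_sum h3
  have h5 : ∑ K ∈ O, (cut G (comp u K)).card = (O.biUnion (fun K => cut G (comp u K))).card := by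
    rw [card_biUnion]
    intro K hK K' hK' hne
    exact hdisj K hK K' hK' hne
  have h6 : O.biUnion (fun K => cut G (comp u K)) ⊆ U.biUnion (fun x => cut G {x}) := by
    intro e he
    rw [mem_biUnion] at he ⊢
    obtain ⟨K, _, he⟩ := he
    obtain ⟨a, b, h1, h2, h7⟩ := cut_comp u hl hdeg K he
    refine ⟨b, hUmem b h7, ?_⟩
    rw [mem_cut_singleton hl]
    rw [Sym2.eq_iff] at h1
    tauto
  have h7 : (U.biUnion (fun x => cut G {x})).card ≤ U.card * 3 := by
    refine card_biUnion_le_card_mul _ _ _ ?_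
    intro x hx
    rw [hU, mem_image] at hx
    obtain ⟨y, _, rfl⟩ := hx
    exact y.2.le
  have h8 := card_le_card h6
  rw [hOc] at hu
  omega

end Comp

/-- **Petersen's theorem**: in a bridgeless finite multigraph without loops in which every vertex
has degree 3 or 0 there is a set of edges which meets every vertex of degree 3 in exactly one
edge. -/
theorem petersen (G : FinGraph) (hl : ∀ e, G.fst e ≠ G.snd e)
    (hdeg : ∀ v, (cut G {v}).card = 0 ∨ (cut G {v}).card = 3) (hb : Bridgeless G) :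
    ∃ M : Finset G.E, ∀ v, (cut G {v}).card = 3 → ∃! e, e ∈ M ∧ e ∈ cut G {v} := by
  classical
  obtain ⟨S, hS⟩ := (SimpleGraph.tutte (G := simple G)).2 (fun u => no_violator u hl hdeg hb)
  have hm : ∀ x : VV G, ∃! y, S.Adj x y := fun x => hS.1 (hS.2 x)
  obtain ⟨pick, hpick⟩ : ∃ pick : Sym2 G.V → G.E,
      ∀ p, (∃ e, s(G.fst e, G.snd e) = p) → s(G.fst (pick p), G.snd (pick p)) = p := by
    refine ⟨fun p => if h : ∃ e, s(G.fst e, G.snd e) = p then h.choose else
      Classical.choice G.nonempty, ?_⟩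
    intro p hp
    simp only [dif_pos hp]
    exact hp.choose_spec
  refine ⟨univ.filter (fun e => pick s(G.fst e, G.snd e) = e ∧
    ∃ x y : VV G, S.Adj x y ∧ s(G.fst e, G.snd e) = s(x.1, y.1)), ?_⟩
  intro v hv
  obtain ⟨y, hy, hyu⟩ := hm ⟨v, hv⟩
  have hadj : (simple G).Adj ⟨v, hv⟩ y := S.adj_sub hy
  obtain ⟨_, e0, he0⟩ := hadj
  have hp := hpick s(v, y.1) ⟨e0, he0⟩
  refine ⟨pick s(v, y.1), ⟨?_, ?_⟩, ?_⟩
  · rw [mem_filter]
    exact ⟨mem_univ _, by rw [hp], ⟨v, hv⟩, y, hy, hp⟩
  · rw [mem_cut_singleton hl]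
    rw [Sym2.eq_iff] at hp
    tauto
  · rintro e ⟨he1, he2⟩
    rw [mem_filter] at he1
    obtain ⟨_, h1, x, z, h2, h3⟩ := he1
    have h4 : s(G.fst e, G.snd e) = s(v, y.1) := by
      rw [mem_cut_singleton hl] at he2
      have h5 : v = x.1 ∨ v = z.1 := by
        rw [Sym2.eq_iff] at h3
        rcases he2 with h | h <;> rcases h3 with ⟨h6, h7⟩ | ⟨h6, h7⟩
        · exact Or.inl (h.symm.trans h6)
        · exact Or.inr (h.symm.trans h6)
        · exact Or.inr (h.symm.trans h7)
        · exact Or.inl (h.symm.trans h7)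
      rcases h5 with h5 | h5
      · have hx : x = ⟨v, hv⟩ := Subtype.ext h5.symm
        subst hx
        rw [h3, hyu z h2]
      · have hz : z = ⟨v, hv⟩ := Subtype.ext h5.symm
        subst hz
        rw [h3, hyu x h2.symm, Sym2.eq_swap]
    rw [← h1, h4]

end Pool.Agent.CCP55
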